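import Pool.Agent.Run7.h420.Morse.Upper

/-!
# Auxiliary facts for the Morse subshift
-/

set_option autoImplicit false

namespace Run7.h420.Morse

/-- Elements of `G` have sections in `G`. -/
lemma sections {f : Equiv.Perm ℕ} (hf : f ∈ G) : ∃ p : Bool, ∃ g : Bool → Equiv.Perm ℕ,
    (∀ u, g u ∈ G) ∧ f = mk p g := by
  induction hf using Subgroup.closure_induction with
  | mem x hx =>
    obtain ⟨i, rfl⟩ := hx
    fin_cases i
    · exact ⟨true, fun _ => 1, fun _ => G.one_mem, a_rec⟩
    · refine ⟨false, fun u => cond u a b, fun u => ?_, b_rec⟩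
      cases u
      · exact bG
      · exact aG
    · refine ⟨false, fun u => cond u a d, fun u => ?_, c_rec⟩
      cases u
      · exact dG
      · exact aG
    · refine ⟨false, fun u => cond u 1 c, fun u => ?_, d_rec⟩
      cases u
      · exact cG
      · exact G.one_mem
  | one => exact ⟨false, fun _ => 1, fun _ => G.one_mem, mk_one.symm⟩
  | mul x y _ _ hx hy =>
    obtain ⟨p, g, hg, rfl⟩ := hx
    obtain ⟨p', g', hg', rfl⟩ := hy
    exact ⟨xor p p', fun u => g (xor u p') * g' u, fun u => G.mul_mem (hg _) (hg' _), mk_mul _ _ _ _⟩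
  | inv x _ hx =>
    obtain ⟨p, g, hg, rfl⟩ := hx
    refine ⟨p, fun u => (g (xor u p))⁻¹, fun u => G.inv_mem (hg _), ?_⟩
    apply inv_eq_of_mul_eq_one_right
    rw [mk_mul, ← mk_one]
    have h1 : xor p p = false := by cases p <;> rfl
    rw [h1]
    congr 1
    funext u
    simp

/-- An element of `G` which fixes all large numbers is trivial. -/
lemma eq_one_of_large (L : ℕ) (f : Equiv.Perm ℕ) (hf : f ∈ G) (h : ∀ m, L ≤ m → f m = m) :
    f = 1 := by
  induction L using Nat.strong_induction_on generalizing f with
  | _ L ih =>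
    by_cases hL : L ≤ 1
    · have h1 : ∀ m, 1 ≤ m → f m = m := fun m hm => h m (by omega)
      ext m
      rw [Equiv.Perm.one_apply]
      by_cases hm : 1 ≤ m
      · exact h1 m hm
      · have hm0 : m = 0 := by omega
        subst hm0
        by_contra hne
        have h2 : f (f 0) = f 0 := h1 (f 0) (by omega)
        exact hne (f.injective h2)
    · obtain ⟨p, g, hg, rfl⟩ := sections hf
      have key : ∀ u k, L ≤ 2 * k → (xor u p, g u k) = (u, k) := by
        intro u k hk
        have h2 : L ≤ code.symm (u, k) := by
          have : 2 * k ≤ code.symm (u, k) := by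
            simp only [code, Equiv.coe_fn_symm_mk]
            omega
          omega
        have h3 := h _ h2
        rw [mk_code] at h3
        exact code.symm.injective h3
      have hp : p = false := by
        have := (Prod.mk.inj (key false L (by omega))).1
        simpa using this
      subst hp
      have hgu : ∀ u, g u = 1 := by
        intro u
        apply ih ((L + 1) / 2) (by omega) (g u) (hg u)
        intro m hm
        exact (Prod.mk.inj (key u m (by omega))).2
      have : g = fun _ => 1 := funext hgu
      rw [this, mk_one]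

lemma t_one : t 1 = true := by
  have := t_odd 0
  simpa [t_zero] using this

lemma t_two : t 2 = true := by
  have := t_even 1
  simpa [t_one] using this

lemma t_three : t 3 = false := by
  have := t_odd 1
  simpa [t_one] using this

lemma t_three_sub (r : ℕ) (hr : r < 4) : t (3 - r) = t r := by
  interval_cases r
  · show t 3 = t 0
    rw [t_three, t_zero]
  · show t 2 = t 1
    rw [t_one, t_two]
  · show t 1 = t 2
    rw [t_one, t_two]
  · show t 0 = t 3
    rw [t_three, t_zero]

lemma t_four (m r : ℕ) (hr : r < 4) : t (4 * m + r) = xor (t m) (t r) := by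
  have h1 : t 1 = true := by
    have := t_odd 0
    simpa [t_zero] using this
  have h2 : t 2 = true := by
    have := t_even 1
    simpa [h1] using this
  have h3 : t 3 = false := by
    have := t_odd 1
    simpa [h1] using this
  have e0 : t (4 * m) = t m := by
    rw [show 4 * m = 2 * (2 * m) by ring, t_even, t_even]
  have e1 : t (4 * m + 1) = !t m := by
    rw [show 4 * m + 1 = 2 * (2 * m) + 1 by ring, t_odd, t_even]
  have e2 : t (4 * m + 2) = !t m := by
    rw [show 4 * m + 2 = 2 * (2 * m + 1) by ring, t_even, t_odd]
  have e3 : t (4 * m + 3) = t m := by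
    rw [show 4 * m + 3 = 2 * (2 * m + 1) + 1 by ring, t_odd, t_odd]
    simp
  interval_cases r
  · rw [add_zero, e0, t_zero]; simp
  · rw [e1, h1]; simp
  · rw [e2, h2]; simp
  · rw [e3, h3]; simp

lemma t_block (n m j : ℕ) (hj : j < 4 ^ n) : t (m * 4 ^ n + j) = xor (t m) (t j) := by
  induction n generalizing j with
  | zero =>
    have : j = 0 := by simpa using hj
    subst this
    simp [t_zero]
  | succ n ih =>
    have h1 : j = 4 * (j / 4) + j % 4 := (Nat.div_add_mod j 4).symm
    have h2 : j / 4 < 4 ^ n := by
      rw [Nat.div_lt_iff_lt_mul (by norm_num)]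
      rw [pow_succ] at hj
      exact hj
    have h3 : m * 4 ^ (n + 1) + j = 4 * (m * 4 ^ n + j / 4) + j % 4 := by
      have e : m * 4 ^ (n + 1) = 4 * (m * 4 ^ n) := by ring
      rw [e]
      omega
    rw [h3, t_four _ _ (Nat.mod_lt _ (by norm_num)), ih _ h2]
    conv_rhs => rw [h1, t_four _ _ (Nat.mod_lt _ (by norm_num))]
    cases t m <;> cases t (j / 4) <;> cases t (j % 4) <;> rfl

lemma t_pal (n j : ℕ) (hj : j < 4 ^ n) : t (4 ^ n - 1 - j) = t j := by
  induction n generalizing j with
  | zero =>
    have : j = 0 := by simpa using hj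
    subst this
    simp
  | succ n ih =>
    have h1 : j = 4 * (j / 4) + j % 4 := (Nat.div_add_mod j 4).symm
    have h2 : j / 4 < 4 ^ n := by
      rw [Nat.div_lt_iff_lt_mul (by norm_num)]
      rw [pow_succ] at hj
      exact hj
    have hr : j % 4 < 4 := Nat.mod_lt _ (by norm_num)
    have h3 : 4 ^ (n + 1) - 1 - j = 4 * (4 ^ n - 1 - j / 4) + (3 - j % 4) := by
      rw [pow_succ]
      omega
    rw [h3, t_four _ _ (by omega), ih _ h2]
    conv_rhs => rw [h1, t_four _ _ hr]
    congr 1
    exact t_three_sub _ hr

end Run7.h420.Morse
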