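import Mathlib

/-!
# Erschler's group acting on the natural numbers

The Thue-Morse sequence `t`, the ruler sequence `q` (`q l` says that the 2-adic valuation of `l` is
odd), the four permutations `a`, `b`, `c`, `d` of `ℕ` and their wreath recursion.
-/

set_option autoImplicit false

namespace Run7.h420.Morse

/-- The Thue-Morse sequence. -/
def t : ℕ → Bool
  | 0 => false
  | (n + 1) => if (n + 1) % 2 = 0 then t ((n + 1) / 2) else !t ((n + 1) / 2)

lemma t_zero : t 0 = false := by rw [t]

lemma t_even (n : ℕ) : t (2 * n) = t n := by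
  rcases n with _ | n
  · rfl
  · rw [show 2 * (n + 1) = (2 * n + 1) + 1 by ring, t]
    rw [if_pos (by omega)]
    congr 1
    omega

lemma t_odd (n : ℕ) : t (2 * n + 1) = !t n := by
  rw [t, if_neg (by omega)]
  congr 2
  omega

/-- `q l`: the 2-adic valuation of `l` is odd (for `l ≥ 1`). -/
def q (l : ℕ) : Bool := t (l - 1) == t l

lemma q_odd (k : ℕ) : q (2 * k + 1) = false := by
  unfold q
  rw [show 2 * k + 1 - 1 = 2 * k by omega, t_even, t_odd]
  cases t k <;> rfl

lemma q_even (k : ℕ) (hk : 1 ≤ k) : q (2 * k) = !q k := by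
  unfold q
  rw [show 2 * k - 1 = 2 * (k - 1) + 1 by omega, t_even, t_odd]
  cases t k <;> cases t (k - 1) <;> rfl

/-- the edge `{l - 1, l}` belongs to `a`, `b`, `c`, `d` -/
def Ea (l : ℕ) : Bool := l % 2 == 1
/-- see `Ea` -/
def Eb (l : ℕ) : Bool := l % 2 == 0 && l != 0
/-- see `Ea` -/
def Ec (l : ℕ) : Bool := q l && l != 0
/-- see `Ea` -/
def Ed (l : ℕ) : Bool := (l % 2 == 0 && l != 0) && !q l

/-- A set of pairwise disjoint edges. -/
def Good (E : ℕ → Bool) : Prop := E 0 = false ∧ ∀ l, E l = true → E (l + 1) = false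

/-- Swap along a set of edges. -/
def sw (E : ℕ → Bool) (n : ℕ) : ℕ := if E (n + 1) then n + 1 else if E n then n - 1 else n

lemma sw_sw (E : ℕ → Bool) (h : Good E) (n : ℕ) : sw E (sw E n) = n := by
  obtain ⟨h0, h1⟩ := h
  unfold sw
  by_cases e1 : E (n + 1) = true
  · rw [if_pos e1]
    rw [if_neg (by rw [h1 _ e1]; simp), if_pos e1]
    omega
  · rw [if_neg e1]
    by_cases e2 : E n = true
    · rw [if_pos e2]
      have hn : n ≠ 0 := by
        rintro rfl
        rw [h0] at e2
        exact absurd e2 (by simp)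
      rw [show n - 1 + 1 = n by omega, if_pos e2]
    · rw [if_neg e2, if_neg e1, if_neg e2]

/-- The permutation of a set of disjoint edges. -/
def swp (E : ℕ → Bool) (h : Good E) : Equiv.Perm ℕ :=
  ⟨sw E, sw E, sw_sw E h, sw_sw E h⟩

lemma par (l : ℕ) : (∃ k, l = 2 * k) ∨ ∃ k, l = 2 * k + 1 := by
  rcases Nat.even_or_odd' l with ⟨k, h | h⟩
  · exact Or.inl ⟨k, h⟩
  · exact Or.inr ⟨k, h⟩

lemma q_false_of_odd {l : ℕ} (h : l % 2 = 1) : q l = false := by
  rcases par l with ⟨k, rfl⟩ | ⟨k, rfl⟩
  · omega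
  · exact q_odd k

lemma good_a : Good Ea := ⟨rfl, fun l h => by
  simp only [Ea, beq_iff_eq, beq_eq_false_iff_ne, ne_eq] at h ⊢; omega⟩

lemma good_b : Good Eb := ⟨rfl, fun l h => by
  simp only [Eb, Bool.and_eq_true, beq_iff_eq, bne_iff_ne, ne_eq, Bool.and_eq_false_iff,
    beq_eq_false_iff_ne] at h ⊢
  left; omega⟩

lemma Ec_even {l : ℕ} (h : Ec l = true) : l % 2 = 0 := by
  by_contra h2
  rw [Ec, q_false_of_odd (by omega)] at h
  simp at h

lemma Ed_even {l : ℕ} (h : Ed l = true) : l % 2 = 0 := by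
  simp only [Ed, Bool.and_eq_true, beq_iff_eq] at h
  exact h.1.1

lemma good_c : Good Ec := by
  refine ⟨by simp [Ec], fun l h => ?_⟩
  have := Ec_even h
  rw [Ec, q_false_of_odd (by omega)]
  rfl

lemma good_d : Good Ed := by
  refine ⟨by simp [Ed], fun l h => ?_⟩
  have := Ed_even h
  have h2 : (l + 1) % 2 = 1 := by omega
  simp [Ed, h2]

/-- The four generators. -/
def a : Equiv.Perm ℕ := swp Ea good_a
/-- see `a` -/
def b : Equiv.Perm ℕ := swp Eb good_b
/-- see `a` -/
def c : Equiv.Perm ℕ := swp Ec good_c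
/-- see `a` -/
def d : Equiv.Perm ℕ := swp Ed good_d

/-- The coding of the natural numbers: `n = 2 k + i` has the first letter `i + k mod 2` and the rest
`k`. -/
def code : ℕ ≃ Bool × ℕ where
  toFun n := (xor (n % 2 == 1) (n / 2 % 2 == 1), n / 2)
  invFun p := 2 * p.2 + (if xor p.1 (p.2 % 2 == 1) then 1 else 0)
  left_inv n := by
    simp only
    have h : xor (xor (n % 2 == 1) (n / 2 % 2 == 1)) (n / 2 % 2 == 1) = (n % 2 == 1) := by
      cases (n % 2 == 1) <;> cases (n / 2 % 2 == 1) <;> rfl
    rw [h]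
    rcases Nat.mod_two_eq_zero_or_one n with h | h <;> simp [h] <;> omega
  right_inv p := by
    obtain ⟨u, k⟩ := p
    simp only
    have h1 : (2 * k + if (xor u (k % 2 == 1)) = true then 1 else 0) / 2 = k := by
      split_ifs <;> omega
    rw [h1]
    have h2 : ((2 * k + if (xor u (k % 2 == 1)) = true then 1 else 0) % 2 == 1) =
        xor u (k % 2 == 1) := by
      split_ifs with h
      · rw [h]; simp
      · simp only [Bool.not_eq_true] at h
        rw [h]; simp
    rw [h2]
    cases u <;> cases (k % 2 == 1) <;> rfl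

/-- The map on pairs. -/
def mkFun (p : Bool) (g : Bool → Equiv.Perm ℕ) : Bool × ℕ ≃ Bool × ℕ where
  toFun x := (xor x.1 p, g x.1 x.2)
  invFun x := (xor x.1 p, (g (xor x.1 p)).symm x.2)
  left_inv x := by
    obtain ⟨u, k⟩ := x
    simp
  right_inv x := by
    obtain ⟨u, k⟩ := x
    simp

/-- The permutation with the given action on the first letter and the given sections. -/
def mk (p : Bool) (g : Bool → Equiv.Perm ℕ) : Equiv.Perm ℕ :=
  (code.trans (mkFun p g)).trans code.symm

lemma mk_code (p : Bool) (g : Bool → Equiv.Perm ℕ) (u : Bool) (k : ℕ) :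
    mk p g (code.symm (u, k)) = code.symm (xor u p, g u k) := by
  simp [mk, mkFun]

lemma ext_code {g h : Equiv.Perm ℕ} (H : ∀ u k, g (code.symm (u, k)) = h (code.symm (u, k))) :
    g = h := by
  ext n
  have := H (code n).1 (code n).2
  simpa using this

lemma mk_mul (p p' : Bool) (g g' : Bool → Equiv.Perm ℕ) :
    mk p g * mk p' g' = mk (xor p p') (fun u => g (xor u p') * g' u) := by
  apply ext_code
  intro u k
  rw [Equiv.Perm.mul_apply, mk_code, mk_code, mk_code, Equiv.Perm.mul_apply]
  congr 2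
  cases u <;> cases p <;> cases p' <;> rfl

lemma mk_one : mk false (fun _ => 1) = 1 := by
  apply ext_code
  intro u k
  rw [mk_code]
  simp

lemma mk_inj {p p' : Bool} {g g' : Bool → Equiv.Perm ℕ} (h : mk p g = mk p' g') :
    p = p' ∧ g = g' := by
  have h1 : ∀ u k, (xor u p, g u k) = (xor u p', g' u k) := by
    intro u k
    have h2 := congrArg (fun e : Equiv.Perm ℕ => code (e (code.symm (u, k)))) h
    simpa only [mk_code, Equiv.apply_symm_apply] using h2
  constructor
  · have := congrArg Prod.fst (h1 false 0)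
    simpa using this
  · funext u
    ext k
    exact congrArg Prod.snd (h1 u k)

lemma symm_tt (k : ℕ) : code.symm (true, k) = if k % 2 = 0 then 2 * k + 1 else 2 * k := by
  simp only [code, Equiv.coe_fn_symm_mk]
  rcases Nat.mod_two_eq_zero_or_one k with h | h <;> simp [h]

lemma symm_ff (k : ℕ) : code.symm (false, k) = if k % 2 = 0 then 2 * k else 2 * k + 1 := by
  simp only [code, Equiv.coe_fn_symm_mk]
  rcases Nat.mod_two_eq_zero_or_one k with h | h <;> simp [h]

lemma a_apply (n : ℕ) : a n = if n % 2 = 0 then n + 1 else n - 1 := by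
  show sw Ea n = _
  unfold sw Ea
  rcases par n with ⟨k, rfl⟩ | ⟨k, rfl⟩
  · have h1 : (2 * k + 1) % 2 = 1 := by omega
    simp [h1]
  · have h1 : (2 * k + 1) % 2 = 1 := by omega
    have h2 : (2 * k + 1 + 1) % 2 = 0 := by omega
    simp [h1, h2]

lemma b_apply (n : ℕ) : b n = if n % 2 = 1 then n + 1 else n - 1 := by
  show sw Eb n = _
  unfold sw Eb
  rcases par n with ⟨k, rfl⟩ | ⟨k, rfl⟩
  · have h1 : (2 * k + 1) % 2 = 1 := by omega
    simp [h1]
    omega
  · have h1 : (2 * k + 1) % 2 = 1 := by omega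
    have h2 : (2 * k + 1 + 1) % 2 = 0 := by omega
    simp [h1, h2]

lemma q_even' (k : ℕ) : q (2 * k + 1 + 1) = !q (k + 1) := q_even (k + 1) (by omega)

lemma c_even (k : ℕ) : c (2 * k) = if k = 0 then 0 else if q k then 2 * k else 2 * k - 1 := by
  show sw Ec (2 * k) = _
  unfold sw Ec
  rw [q_odd]
  by_cases hk : k = 0
  · subst hk; simp
  · rw [q_even k (by omega)]
    cases q k <;> simp [hk]

lemma c_odd (k : ℕ) : c (2 * k + 1) = if q (k + 1) then 2 * k + 1 else 2 * k + 2 := by
  show sw Ec (2 * k + 1) = _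
  unfold sw Ec
  rw [q_odd, q_even']
  cases q (k + 1) <;> simp

lemma d_even (k : ℕ) : d (2 * k) = if q k then 2 * k - 1 else 2 * k := by
  show sw Ed (2 * k) = _
  unfold sw Ed
  have h1 : (2 * k + 1) % 2 = 1 := by omega
  rw [q_odd]
  by_cases hk : k = 0
  · subst hk; simp
  · rw [q_even k (by omega)]
    cases q k <;> simp [hk, h1]

lemma d_odd (k : ℕ) : d (2 * k + 1) = if q (k + 1) then 2 * k + 2 else 2 * k + 1 := by
  show sw Ed (2 * k + 1) = _
  unfold sw Ed
  have h1 : (2 * k + 1) % 2 = 1 := by omega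
  have h2 : (2 * k + 1 + 1) % 2 = 0 := by omega
  rw [q_odd, q_even']
  cases q (k + 1) <;> simp [h1, h2]

lemma a_even (k : ℕ) : a (2 * k) = 2 * k + 1 := by rw [a_apply, if_pos (by omega)]
lemma a_odd (k : ℕ) : a (2 * k + 1) = 2 * k := by rw [a_apply, if_neg (by omega)]; omega
lemma b_even (k : ℕ) : b (2 * k) = 2 * k - 1 := by rw [b_apply, if_neg (by omega)]
lemma b_odd (k : ℕ) : b (2 * k + 1) = 2 * k + 2 := by rw [b_apply, if_pos (by omega)]

lemma tt_even (j : ℕ) : code.symm (true, 2 * j) = 4 * j + 1 := by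
  rw [symm_tt, if_pos (by omega)]; ring
lemma tt_odd (j : ℕ) : code.symm (true, 2 * j + 1) = 4 * j + 2 := by
  rw [symm_tt, if_neg (by omega)]; ring
lemma ff_even (j : ℕ) : code.symm (false, 2 * j) = 4 * j := by
  rw [symm_ff, if_pos (by omega)]; ring
lemma ff_odd (j : ℕ) : code.symm (false, 2 * j + 1) = 4 * j + 3 := by
  rw [symm_ff, if_neg (by omega)]; ring

lemma tt_pred (j : ℕ) (hj : j ≠ 0) : code.symm (true, 2 * j - 1) = 4 * j - 2 := by
  rw [symm_tt, if_neg (by omega)]; omega
lemma ff_pred (j : ℕ) (hj : j ≠ 0) : code.symm (false, 2 * j - 1) = 4 * j - 1 := by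
  rw [symm_ff, if_neg (by omega)]; omega
lemma ff_succ (j : ℕ) : code.symm (false, 2 * j + 2) = 4 * j + 4 := by
  rw [symm_ff, if_pos (by omega)]; ring

lemma a_rec : a = mk true (fun _ => 1) := by
  apply ext_code
  intro u k
  rw [mk_code]
  rcases par k with ⟨j, rfl⟩ | ⟨j, rfl⟩ <;> cases u <;>
  simp only [Bool.false_bne, Bool.true_bne, Bool.not_true, Equiv.Perm.coe_one, id_eq,
    tt_even, tt_odd, ff_even, ff_odd]
  · rw [show 4 * j = 2 * (2 * j) by ring, a_even]
  · rw [show 4 * j + 1 = 2 * (2 * j) + 1 by ring, a_odd]; ring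
  · rw [show 4 * j + 3 = 2 * (2 * j + 1) + 1 by ring, a_odd]; ring
  · rw [show 4 * j + 2 = 2 * (2 * j + 1) by ring, a_even]; ring

lemma q_succ_even (j : ℕ) : q (2 * j + 1 + 1) = !q (j + 1) := q_even' j

lemma c_rec : c = mk false (fun u => cond u a d) := by
  apply ext_code
  intro u k
  rw [mk_code]
  rcases par k with ⟨j, rfl⟩ | ⟨j, rfl⟩ <;> cases u <;>
  simp only [Bool.false_bne, Bool.true_bne, Bool.not_false, cond_true, cond_false,
    tt_even, tt_odd, ff_even, ff_odd]
  · rw [show 4 * j = 2 * (2 * j) by ring, c_even, d_even]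
    by_cases hj : j = 0
    · subst hj
      have h0 := ff_even 0
      by_cases hq : q 0 = true <;> simp [hq] <;> simpa using h0.symm
    · rw [if_neg (by omega), q_even j (by omega)]
      cases q j
      · simp only [Bool.not_false, if_true, Bool.false_eq_true, if_false]
        rw [ff_even]; ring
      · simp only [Bool.not_true, if_true, Bool.false_eq_true, if_false]
        rw [ff_pred j hj]; omega
  · rw [show 4 * j + 1 = 2 * (2 * j) + 1 by ring, c_odd, q_odd, a_even, tt_odd]
    simp
    ring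
  · rw [show 4 * j + 3 = 2 * (2 * j + 1) + 1 by ring, c_odd, d_odd, q_even']
    cases q (j + 1)
    · simp only [Bool.not_false, if_true, Bool.false_eq_true, if_false]
      rw [ff_odd]; ring
    · simp only [Bool.not_true, if_true, Bool.false_eq_true, if_false]
      rw [ff_succ]; ring
  · rw [show 4 * j + 2 = 2 * (2 * j + 1) by ring, c_even, q_odd, a_odd, tt_even]
    simp
    omega

lemma d_rec : d = mk false (fun u => cond u 1 c) := by
  apply ext_code
  intro u k
  rw [mk_code]
  rcases par k with ⟨j, rfl⟩ | ⟨j, rfl⟩ <;> cases u <;>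
  simp only [Bool.false_bne, Bool.true_bne, Bool.not_false, cond_true, cond_false,
    tt_even, tt_odd, ff_even, ff_odd, Equiv.Perm.coe_one, id_eq]
  · rw [show 4 * j = 2 * (2 * j) by ring, d_even, c_even]
    by_cases hj : j = 0
    · subst hj
      have h0 := ff_even 0
      by_cases hq : q (2 * 0) = true <;> simp at hq <;> simp [hq] <;> simpa using h0.symm
    · rw [if_neg hj, q_even j (by omega)]
      cases q j
      · simp only [Bool.not_false, if_true, Bool.false_eq_true, if_false]
        rw [ff_pred j hj]; omega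
      · simp only [Bool.not_true, if_true, Bool.false_eq_true, if_false]
        rw [ff_even]; ring
  · rw [show 4 * j + 1 = 2 * (2 * j) + 1 by ring, d_odd, q_odd]
    simp
  · rw [show 4 * j + 3 = 2 * (2 * j + 1) + 1 by ring, d_odd, c_odd, q_even']
    cases q (j + 1)
    · simp only [Bool.not_false, if_true, Bool.false_eq_true, if_false]
      rw [ff_succ]; ring
    · simp only [Bool.not_true, if_true, Bool.false_eq_true, if_false]
      rw [ff_odd]; ring
  · rw [show 4 * j + 2 = 2 * (2 * j + 1) by ring, d_even, q_odd]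
    simp

lemma b_rec : b = mk false (fun u => cond u a b) := by
  apply ext_code
  intro u k
  rw [mk_code]
  rcases par k with ⟨j, rfl⟩ | ⟨j, rfl⟩ <;> cases u <;>
  simp only [Bool.false_bne, Bool.true_bne, Bool.not_false, cond_true, cond_false,
    tt_even, tt_odd, ff_even, ff_odd]
  · rw [show 4 * j = 2 * (2 * j) by ring, b_even, b_even]
    by_cases hj : j = 0
    · subst hj
      simpa using (ff_even 0).symm
    · rw [ff_pred j hj]; omega
  · rw [show 4 * j + 1 = 2 * (2 * j) + 1 by ring, b_odd, a_even, tt_odd]; ring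
  · rw [show 4 * j + 3 = 2 * (2 * j + 1) + 1 by ring, b_odd, b_odd, ff_succ]; ring
  · rw [show 4 * j + 2 = 2 * (2 * j + 1) by ring, b_even, a_odd, tt_even]; omega

lemma a_sq : a * a = 1 := by ext n; exact sw_sw Ea good_a n
lemma b_sq : b * b = 1 := by ext n; exact sw_sw Eb good_b n
lemma c_sq : c * c = 1 := by ext n; exact sw_sw Ec good_c n
lemma d_sq : d * d = 1 := by ext n; exact sw_sw Ed good_d n

lemma cd : c * d = b := by
  ext n
  rw [Equiv.Perm.mul_apply]
  rcases par n with ⟨k, rfl⟩ | ⟨k, rfl⟩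
  · rw [d_even, b_even]
    by_cases hk : k = 0
    · subst hk
      simp [show c 0 = 0 from by simpa using c_even 0]
    · by_cases hq : q k = true
      · rw [if_pos hq, show 2 * k - 1 = 2 * (k - 1) + 1 by omega, c_odd,
          show k - 1 + 1 = k by omega, if_pos hq]
      · rw [if_neg hq, c_even, if_neg hk, if_neg hq]
  · rw [d_odd, b_odd]
    by_cases hq : q (k + 1) = true
    · rw [if_pos hq, show 2 * k + 2 = 2 * (k + 1) by ring, c_even, if_neg (by omega), if_pos hq]
    · rw [if_neg hq, c_odd, if_neg hq]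

lemma dc : d * c = b := by
  have h := cd
  have : (c * d)⁻¹ = b⁻¹ := by rw [h]
  rw [mul_inv_rev, inv_eq_of_mul_eq_one_right c_sq, inv_eq_of_mul_eq_one_right d_sq,
    inv_eq_of_mul_eq_one_right b_sq] at this
  exact this

end Run7.h420.Morse
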