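import Pool.Agent.Run7.h420.Morse.Line

/-!
# Erschler's group contains free abelian groups of every rank
-/

set_option autoImplicit false

namespace Run7.h420.Morse

/-- The product of the letters of a word. -/
def ev {Γ : Type*} [Monoid Γ] (gen : Fin 4 → Γ) (w : List (Fin 4)) : Γ := (w.map gen).prod

/-- The ball of radius `n`. -/
def Ball {Γ : Type*} [Monoid Γ] (gen : Fin 4 → Γ) (n : ℕ) : Set Γ :=
  {g | ∃ w : List (Fin 4), w.length ≤ n ∧ ev gen w = g}

lemma ball_finite {Γ : Type*} [Monoid Γ] (gen : Fin 4 → Γ) (n : ℕ) : (Ball gen n).Finite := by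
  have h : Ball gen n = ev gen '' {w : List (Fin 4) | w.length ≤ n} := by
    ext g
    simp [Ball, Set.mem_image]
  rw [h]
  exact (List.finite_length_le (Fin 4) n).image _

/-- The generators `a`, `b`, `c`, `d`. -/
def gN : Fin 4 → Equiv.Perm ℕ := ![a, b, c, d]

/-- The group. -/
def G : Subgroup (Equiv.Perm ℕ) := Subgroup.closure (Set.range gN)

lemma aG : a ∈ G := Subgroup.subset_closure ⟨0, rfl⟩
lemma bG : b ∈ G := Subgroup.subset_closure ⟨1, rfl⟩
lemma cG : c ∈ G := Subgroup.subset_closure ⟨2, rfl⟩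
lemma dG : d ∈ G := Subgroup.subset_closure ⟨3, rfl⟩

lemma gN_sq (i : Fin 4) : gN i * gN i = 1 := by
  fin_cases i
  · exact a_sq
  · exact b_sq
  · exact c_sq
  · exact d_sq

lemma ev_append {Γ : Type*} [Monoid Γ] (gen : Fin 4 → Γ) (v w : List (Fin 4)) :
    ev gen (v ++ w) = ev gen v * ev gen w := by simp [ev]

lemma ev_reverse {Γ : Type*} [Group Γ] (gen : Fin 4 → Γ) (h : ∀ i, gen i * gen i = 1)
    (w : List (Fin 4)) : ev gen w.reverse = (ev gen w)⁻¹ := by
  induction w with
  | nil => simp [ev]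
  | cons i w ih =>
    rw [List.reverse_cons, ev_append, ih]
    simp only [ev, List.map_cons, List.map_nil, List.prod_cons, List.prod_nil, mul_one, mul_inv_rev]
    congr 1
    exact (inv_eq_of_mul_eq_one_right (h i)).symm

lemma exists_word {Γ : Type*} [Group Γ] (gen : Fin 4 → Γ) (h : ∀ i, gen i * gen i = 1) {g : Γ}
    (hg : g ∈ Subgroup.closure (Set.range gen)) : ∃ w, ev gen w = g := by
  induction hg using Subgroup.closure_induction with
  | mem x hx =>
    obtain ⟨i, rfl⟩ := hx
    exact ⟨[i], by simp [ev]⟩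
  | one => exact ⟨[], rfl⟩
  | mul x y _ _ hx hy =>
    obtain ⟨v, rfl⟩ := hx
    obtain ⟨w, rfl⟩ := hy
    exact ⟨v ++ w, ev_append _ _ _⟩
  | inv x _ hx =>
    obtain ⟨v, rfl⟩ := hx
    exact ⟨v.reverse, ev_reverse gen h v⟩

/-- The element with the section `g` at the letter `false`. -/
def iota (g : Equiv.Perm ℕ) : Equiv.Perm ℕ := mk false (fun u => cond u 1 g)

/-- The element with the section `g` at the letter `true`. -/
def iota' (g : Equiv.Perm ℕ) : Equiv.Perm ℕ := mk false (fun u => cond u g 1)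

lemma mkf_mul (g h g' h' : Equiv.Perm ℕ) :
    mk false (fun u => cond u g h) * mk false (fun u => cond u g' h') =
      mk false (fun u => cond u (g * g') (h * h')) := by
  rw [mk_mul]
  congr 1
  funext u
  cases u <;> rfl

lemma mkf_one : mk false (fun u => cond u (1 : Equiv.Perm ℕ) 1) = 1 := by
  have : (fun u => cond u (1 : Equiv.Perm ℕ) 1) = fun _ => 1 := by
    funext u
    cases u <;> rfl
  rw [this, mk_one]

lemma mkf_inv (g h : Equiv.Perm ℕ) :
    (mk false (fun u => cond u g h))⁻¹ = mk false (fun u => cond u g⁻¹ h⁻¹) := by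
  apply inv_eq_of_mul_eq_one_right
  rw [mkf_mul]
  simp only [mul_inv_cancel]
  exact mkf_one

lemma conj_a (g h : Equiv.Perm ℕ) :
    a * mk false (fun u => cond u g h) * a = mk false (fun u => cond u h g) := by
  rw [a_rec, mk_mul, mk_mul]
  congr 1
  funext u
  cases u <;> simp

/-- Lifts to the stabilizer of the first level. -/
lemma lift {g : Equiv.Perm ℕ} (hg : g ∈ G) :
    ∃ g' : Equiv.Perm ℕ, mk false (fun u => cond u g' g) ∈ G := by
  induction hg using Subgroup.closure_induction with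
  | mem x hx =>
    obtain ⟨i, rfl⟩ := hx
    fin_cases i
    · refine ⟨d, ?_⟩
      show mk false (fun u => cond u d a) ∈ G
      rw [← conj_a, ← c_rec]
      exact G.mul_mem (G.mul_mem aG cG) aG
    · refine ⟨a, ?_⟩
      show mk false (fun u => cond u a b) ∈ G
      rw [← b_rec]
      exact bG
    · refine ⟨1, ?_⟩
      show mk false (fun u => cond u 1 c) ∈ G
      rw [← d_rec]
      exact dG
    · refine ⟨a, ?_⟩
      show mk false (fun u => cond u a d) ∈ G
      rw [← c_rec]
      exact cG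
  | one =>
    refine ⟨1, ?_⟩
    rw [mkf_one]
    exact G.one_mem
  | mul x y _ _ hx hy =>
    obtain ⟨x', hx⟩ := hx
    obtain ⟨y', hy⟩ := hy
    exact ⟨x' * y', by rw [← mkf_mul]; exact G.mul_mem hx hy⟩
  | inv x _ hx =>
    obtain ⟨x', hx⟩ := hx
    exact ⟨x'⁻¹, by rw [← mkf_inv]; exact G.inv_mem hx⟩

/-- the element `(a c)²` -/
def r : Equiv.Perm ℕ := a * c * a * c

/-- The normal closure of `r` in `G`. -/
def R : Subgroup (Equiv.Perm ℕ) := Subgroup.closure {x | ∃ g ∈ G, x = g * r * g⁻¹}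

lemma conj_mem_R {g x : Equiv.Perm ℕ} (hg : g ∈ G) (hx : x ∈ R) : g * x * g⁻¹ ∈ R := by
  induction hx using Subgroup.closure_induction with
  | mem x hx =>
    obtain ⟨h, hh, rfl⟩ := hx
    refine Subgroup.subset_closure ⟨g * h, G.mul_mem hg hh, ?_⟩
    group
  | one => simp
  | mul x y _ _ hx hy =>
    have : g * (x * y) * g⁻¹ = (g * x * g⁻¹) * (g * y * g⁻¹) := by group
    rw [this]
    exact R.mul_mem hx hy
  | inv x _ hx =>
    have : g * x⁻¹ * g⁻¹ = (g * x * g⁻¹)⁻¹ := by group
    rw [this]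
    exact R.inv_mem hx

lemma r_mem : r ∈ R := Subgroup.subset_closure ⟨1, G.one_mem, by simp⟩

lemma R_le : R ≤ G := by
  rw [R, Subgroup.closure_le]
  rintro x ⟨g, hg, rfl⟩
  have hr : r ∈ G := G.mul_mem (G.mul_mem (G.mul_mem aG cG) aG) cG
  exact G.mul_mem (G.mul_mem hg hr) (G.inv_mem hg)

lemma ainv : a⁻¹ = a := inv_eq_of_mul_eq_one_right a_sq
lemma binv : b⁻¹ = b := inv_eq_of_mul_eq_one_right b_sq
lemma cinv : c⁻¹ = c := inv_eq_of_mul_eq_one_right c_sq
lemma dinv : d⁻¹ = d := inv_eq_of_mul_eq_one_right d_sq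
lemma aa (x : Equiv.Perm ℕ) : a * (a * x) = x := by rw [← mul_assoc, a_sq, one_mul]
lemma cc (x : Equiv.Perm ℕ) : c * (c * x) = x := by rw [← mul_assoc, c_sq, one_mul]
lemma dd (x : Equiv.Perm ℕ) : d * (d * x) = x := by rw [← mul_assoc, d_sq, one_mul]
lemma dc' : d * c = c * d := by rw [dc, cd]
lemma dcx (x : Equiv.Perm ℕ) : d * (c * x) = c * (d * x) := by
  rw [← mul_assoc, dc', mul_assoc]

lemma iota_r : iota r = r * (d * r⁻¹ * d⁻¹) := by
  have hr : r = mk false (fun u => cond u (d * a) (a * d)) := by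
    have h1 : a * c * a = mk false (fun u => cond u d a) := by
      conv_lhs => rw [c_rec]
      rw [conj_a]
    have h2 : r = mk false (fun u => cond u d a) * mk false (fun u => cond u a d) := by
      rw [r, h1, ← c_rec]
    rw [h2, mkf_mul]
  have hd := d_rec
  have h3 : r * (d * r⁻¹ * d⁻¹) =
      mk false (fun u => cond u (d * a) (a * d)) * (mk false (fun u => cond u 1 c) *
        (mk false (fun u => cond u (d * a) (a * d)))⁻¹ * (mk false (fun u => cond u 1 c))⁻¹) := by
    rw [← hd, ← hr]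
  rw [h3, mkf_inv, mkf_inv, mkf_mul, mkf_mul, mkf_mul, iota]
  congr 1
  funext u
  cases u
  · simp only [cond_false, r, mul_inv_rev, ainv, cinv, dinv, mul_assoc, dcx, dd]
  · simp

lemma iota_mul (g h : Equiv.Perm ℕ) : iota (g * h) = iota g * iota h := by
  rw [iota, iota, iota, mkf_mul]
  simp

lemma iota_inv (g : Equiv.Perm ℕ) : iota g⁻¹ = (iota g)⁻¹ := by
  rw [iota, iota, mkf_inv]
  simp

lemma iota_one : iota 1 = 1 := mkf_one

lemma iota_mem {x : Equiv.Perm ℕ} (hx : x ∈ R) : iota x ∈ R := by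
  induction hx using Subgroup.closure_induction with
  | mem x hx =>
    obtain ⟨g, hg, rfl⟩ := hx
    obtain ⟨g', hg'⟩ := lift hg
    have h : iota (g * r * g⁻¹) = mk false (fun u => cond u g' g) * iota r *
        (mk false (fun u => cond u g' g))⁻¹ := by
      rw [mkf_inv, iota, iota, mkf_mul, mkf_mul]
      simp
    rw [h]
    apply conj_mem_R hg'
    rw [iota_r]
    exact R.mul_mem r_mem (conj_mem_R dG (R.inv_mem r_mem))
  | one => rw [iota_one]; exact R.one_mem
  | mul x y _ _ hx hy => rw [iota_mul]; exact R.mul_mem hx hy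
  | inv x _ hx => rw [iota_inv]; exact R.inv_mem hx

lemma iota'_eq (g : Equiv.Perm ℕ) : iota' g = a * iota g * a := by
  rw [iota, conj_a, iota']

lemma ad4 : (a * d * a * d) * (a * d * a * d) = 1 := by
  have h1 : a * d * a = mk false (fun u => cond u c 1) := by
    conv_lhs => rw [d_rec]
    rw [conj_a]
  have h2 : a * d * a * d = mk false (fun u => cond u c c) := by
    rw [h1]
    conv_lhs => rw [d_rec]
    rw [mkf_mul]
    simp
  rw [h2, mkf_mul, c_sq, mkf_one]

lemma abab : a * b * a * b = r * (c * (a * d * r * (a * d)⁻¹) * c⁻¹) * (c * r * c⁻¹) *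
    (a * d * a * d) := by
  rw [← cd]
  simp only [r, mul_inv_rev, ainv, cinv, dinv, mul_assoc, dcx, dd, cc, aa, c_sq, d_sq, a_sq, dc',
    one_mul, mul_one]

/-- the element of infinite order `(a b)⁴` -/
def z : Equiv.Perm ℕ := (a * b) ^ 4

lemma z_mem : z ∈ R := by
  have h1 : z = (a * b * a * b) * (a * b * a * b) := by
    rw [z]
    simp only [pow_succ, pow_zero, one_mul, mul_assoc]
  set ρ := r * (c * (a * d * r * (a * d)⁻¹) * c⁻¹) * (c * r * c⁻¹) with hρ
  have hm : ρ ∈ R := R.mul_mem (R.mul_mem r_mem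
    (conj_mem_R cG (conj_mem_R (G.mul_mem aG dG) r_mem))) (conj_mem_R cG r_mem)
  set e := a * d * a * d with he
  have hab : a * b * a * b = ρ * e := abab
  have h2 : z = ρ * (e * ρ * e⁻¹) := by
    rw [h1, hab]
    have hee : e * e = 1 := ad4
    have : e = e⁻¹ := (inv_eq_of_mul_eq_one_right hee).symm
    calc ρ * e * (ρ * e) = ρ * (e * ρ * e) := by group
      _ = ρ * (e * ρ * e⁻¹) := by rw [← this]
  rw [h2]
  exact R.mul_mem hm (conj_mem_R (G.mul_mem (G.mul_mem (G.mul_mem aG dG) aG) dG) hm)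

/-- Commuting elements of infinite order. -/
def zz : ℕ → Equiv.Perm ℕ
  | 0 => iota' z
  | (j + 1) => iota (zz j)

lemma zz_mem (j : ℕ) : zz j ∈ R := by
  induction j with
  | zero =>
    show iota' z ∈ R
    rw [iota'_eq]
    have := conj_mem_R aG (iota_mem z_mem)
    rwa [ainv] at this
  | succ j ih => exact iota_mem ih

/-- Points in the supports. -/
def pt : ℕ → ℕ → ℕ
  | 0, k => code.symm (true, k)
  | (j + 1), k => code.symm (false, pt j k)

lemma pt_inj (j : ℕ) : Function.Injective (pt j) := by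
  induction j with
  | zero =>
    intro x y h
    have := code.symm.injective h
    exact (Prod.mk.inj this).2
  | succ j ih =>
    intro x y h
    have := code.symm.injective h
    exact ih (Prod.mk.inj this).2

lemma iota_tt (g : Equiv.Perm ℕ) (k : ℕ) : iota g (code.symm (true, k)) = code.symm (true, k) := by
  rw [iota, mk_code]
  simp

lemma iota_ff (g : Equiv.Perm ℕ) (k : ℕ) :
    iota g (code.symm (false, k)) = code.symm (false, g k) := by
  rw [iota, mk_code]
  simp

lemma iota'_tt (g : Equiv.Perm ℕ) (k : ℕ) :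
    iota' g (code.symm (true, k)) = code.symm (true, g k) := by
  rw [iota', mk_code]
  simp

lemma iota'_ff (g : Equiv.Perm ℕ) (k : ℕ) :
    iota' g (code.symm (false, k)) = code.symm (false, k) := by
  rw [iota', mk_code]
  simp

lemma zz_pt (i j k : ℕ) : zz i (pt j k) = if i = j then pt j (z k) else pt j k := by
  induction i generalizing j with
  | zero =>
    cases j with
    | zero => simp only [zz, pt, if_true]; exact iota'_tt z k
    | succ j => simp only [zz, pt]; rw [iota'_ff, if_neg (by omega)]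
  | succ i ih =>
    cases j with
    | zero => simp only [zz, pt]; rw [iota_tt, if_neg (by omega)]
    | succ j =>
      simp only [zz, pt]
      rw [iota_ff, ih]
      by_cases h : i = j
      · subst h; simp
      · rw [if_neg h, if_neg (by omega)]

lemma zz_pow_pt (e i j k : ℕ) :
    (zz i ^ e) (pt j k) = if i = j then pt j ((z ^ e) k) else pt j k := by
  induction e generalizing k with
  | zero => simp
  | succ e ih =>
    rw [pow_succ, Equiv.Perm.mul_apply, zz_pt]
    by_cases h : i = j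
    · rw [if_pos h, ih, if_pos h, if_pos h, pow_succ, Equiv.Perm.mul_apply]
    · rw [if_neg h, ih, if_neg h, if_neg h]

lemma ab_odd (k : ℕ) : (a * b) (2 * k + 1) = 2 * k + 3 := by
  rw [Equiv.Perm.mul_apply, b_odd, show 2 * k + 2 = 2 * (k + 1) by ring, a_even]
  ring

lemma ab_pow (e : ℕ) : ((a * b) ^ e) 1 = 2 * e + 1 := by
  induction e with
  | zero => simp
  | succ e ih => rw [pow_succ', Equiv.Perm.mul_apply, ih, ab_odd]; ring

lemma z_pow (e : ℕ) : (z ^ e) 1 = 8 * e + 1 := by
  rw [z, ← pow_mul, ab_pow]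
  ring

/-- The product of powers. -/
def pr : ℕ → (ℕ → ℕ) → Equiv.Perm ℕ
  | 0, _ => 1
  | (k + 1), e => zz k ^ e k * pr k e

lemma pr_pt (k : ℕ) (e : ℕ → ℕ) (j : ℕ) :
    pr k e (pt j 1) = if j < k then pt j (8 * e j + 1) else pt j 1 := by
  induction k with
  | zero => simp [pr]
  | succ k ih =>
    rw [pr, Equiv.Perm.mul_apply, ih]
    by_cases h : j < k
    · rw [if_pos h, zz_pow_pt, if_neg (by omega), if_pos (by omega)]
    · rw [if_neg h, zz_pow_pt]
      by_cases h2 : k = j
      · subst h2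
        rw [if_pos rfl, if_pos (by omega), z_pow]
      · rw [if_neg h2, if_neg (by omega)]

lemma ev_pow {Γ : Type*} [Monoid Γ] (gen : Fin 4 → Γ) (w : List (Fin 4)) (e : ℕ) :
    ∃ v : List (Fin 4), v.length = e * w.length ∧ ev gen v = ev gen w ^ e := by
  induction e with
  | zero => exact ⟨[], by simp, by simp [ev]⟩
  | succ e ih =>
    obtain ⟨v, h1, h2⟩ := ih
    refine ⟨v ++ w, ?_, ?_⟩
    · rw [List.length_append, h1]; ring
    · rw [ev_append, h2, pow_succ]

lemma pr_word (k : ℕ) : ∃ C : ℕ, ∀ (n : ℕ) (e : ℕ → ℕ), (∀ j, e j ≤ n) →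
    ∃ v : List (Fin 4), v.length ≤ C * n ∧ ev gN v = pr k e := by
  induction k with
  | zero => exact ⟨0, fun n e _ => ⟨[], by simp, rfl⟩⟩
  | succ k ih =>
    obtain ⟨C, hC⟩ := ih
    obtain ⟨w, hw⟩ := exists_word gN gN_sq (R_le (zz_mem k))
    refine ⟨w.length + C, fun n e he => ?_⟩
    obtain ⟨v, h1, h2⟩ := hC n e he
    obtain ⟨v', h1', h2'⟩ := ev_pow gN w (e k)
    refine ⟨v' ++ v, ?_, ?_⟩
    · rw [List.length_append, h1']
      have : e k * w.length ≤ n * w.length := Nat.mul_le_mul_right _ (he k)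
      nlinarith
    · rw [ev_append, h2', hw, h2]
      rfl

/-- Lower bound for the growth. -/
theorem lower (k : ℕ) : ∃ C : ℕ, ∀ n : ℕ, (n + 1) ^ k ≤ (Ball gN (C * n)).ncard := by
  obtain ⟨C, hC⟩ := pr_word k
  refine ⟨C, fun n => ?_⟩
  let F : (Fin k → Fin (n + 1)) → Equiv.Perm ℕ :=
    fun e => pr k (fun j => if h : j < k then (e ⟨j, h⟩ : ℕ) else 0)
  have hF : Function.Injective F := by
    intro e e' h
    funext j
    have h1 : F e (pt j 1) = F e' (pt j 1) := by rw [h]
    simp only [F] at h1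
    rw [pr_pt, pr_pt, if_pos j.2, if_pos j.2] at h1
    have h2 := pt_inj _ h1
    simp only [j.2, dif_pos] at h2
    apply Fin.ext
    have h3 : (e j : ℕ) = (e' j : ℕ) := by
      have : (⟨(j : ℕ), j.2⟩ : Fin k) = j := rfl
      simp only [this] at h2
      omega
    exact h3
  have hsub : F '' Set.univ ⊆ Ball gN (C * n) := by
    rintro _ ⟨e, -, rfl⟩
    obtain ⟨v, h1, h2⟩ := hC n (fun j => if h : j < k then (e ⟨j, h⟩ : ℕ) else 0) (by
      intro j
      split_ifs with h
      · have := (e ⟨j, h⟩).2; omega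
      · omega)
    exact ⟨v, h1, h2⟩
  have h1 := Set.ncard_le_ncard hsub (ball_finite gN _)
  rw [Set.ncard_image_of_injective _ hF, Set.ncard_univ, Nat.card_eq_fintype_card,
    Fintype.card_fun, Fintype.card_fin, Fintype.card_fin] at h1
  exact h1

end Run7.h420.Morse
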