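import Pool.Agent.Run7.h420.Morse.Lower

/-!
# Erschler's group has subexponential growth
-/

set_option autoImplicit false

namespace Run7.h420.Morse

open Finset

noncomputable section

open Classical in
/-- The four letters without `a`. -/
def vv : Fin 4 → Equiv.Perm ℕ := ![1, b, c, d]

lemma bc' : b * c = d := by rw [← dc, mul_assoc, c_sq, mul_one]
lemma cb' : c * b = d := by rw [← cd, cc]
lemma bd' : b * d = c := by rw [← cd, mul_assoc, d_sq, mul_one]
lemma db' : d * b = c := by rw [← dc, dd]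

lemma vv_mul (i j : Fin 4) : ∃ k, vv i * vv j = vv k := by
  fin_cases i <;> fin_cases j
  · exact ⟨0, by simp [vv]⟩
  · exact ⟨1, by simp [vv]⟩
  · exact ⟨2, by simp [vv]⟩
  · exact ⟨3, by simp [vv]⟩
  · exact ⟨1, by simp [vv]⟩
  · exact ⟨0, by simp [vv, b_sq]⟩
  · exact ⟨3, by simp [vv, bc']⟩
  · exact ⟨2, by simp [vv, bd']⟩
  · exact ⟨2, by simp [vv]⟩
  · exact ⟨3, by simp [vv, cb']⟩
  · exact ⟨0, by simp [vv, c_sq]⟩
  · exact ⟨1, by simp [vv, cd]⟩
  · exact ⟨3, by simp [vv]⟩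
  · exact ⟨2, by simp [vv, db']⟩
  · exact ⟨1, by simp [vv, dc]⟩
  · exact ⟨0, by simp [vv, d_sq]⟩

open Classical in
/-- Elements `x₀ a x₁ a ⋯ a x_m`. -/
def E : ℕ → Finset (Equiv.Perm ℕ)
  | 0 => univ.image vv
  | (m + 1) => (univ ×ˢ E m).image (fun p : Fin 4 × Equiv.Perm ℕ => vv p.1 * a * p.2)

open Classical in
/-- Elements with at most `m` letters `a`. -/
def A (m : ℕ) : Finset (Equiv.Perm ℕ) := (range (m + 1)).biUnion E

lemma mem_E_zero {g : Equiv.Perm ℕ} : g ∈ E 0 ↔ ∃ i, g = vv i := by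
  simp [E, eq_comm]

lemma mem_E_succ {m : ℕ} {g : Equiv.Perm ℕ} :
    g ∈ E (m + 1) ↔ ∃ i, ∃ h ∈ E m, g = vv i * a * h := by
  classical
  rw [E, mem_image]
  constructor
  · rintro ⟨⟨i, h⟩, hm, rfl⟩
    exact ⟨i, h, (mem_product.1 hm).2, rfl⟩
  · rintro ⟨i, h, hm, rfl⟩
    exact ⟨(i, h), mem_product.2 ⟨mem_univ _, hm⟩, rfl⟩

lemma mem_A {m : ℕ} {g : Equiv.Perm ℕ} : g ∈ A m ↔ ∃ j ≤ m, g ∈ E j := by
  classical
  rw [A, mem_biUnion]
  constructor
  · rintro ⟨j, hj, h⟩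
    exact ⟨j, by have := mem_range.1 hj; omega, h⟩
  · rintro ⟨j, hj, h⟩
    exact ⟨j, mem_range.2 (by omega), h⟩

/-- Monotone families. -/
def Mono (R : ℕ → Finset (Equiv.Perm ℕ)) : Prop := ∀ i j, i ≤ j → R i ⊆ R j

/-- Submultiplicative families. -/
def IsSub (R : ℕ → Finset (Equiv.Perm ℕ)) : Prop :=
  ∀ i j g h, g ∈ R i → h ∈ R j → g * h ∈ R (i + j)

lemma A_mono : Mono A := by
  intro i j hij g hg
  obtain ⟨k, hk, h⟩ := mem_A.1 hg
  exact mem_A.2 ⟨k, by omega, h⟩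

lemma vv_mul_E (i : Fin 4) {m : ℕ} {g : Equiv.Perm ℕ} (hg : g ∈ E m) : vv i * g ∈ E m := by
  cases m with
  | zero =>
    obtain ⟨j, rfl⟩ := mem_E_zero.1 hg
    exact mem_E_zero.2 (vv_mul i j)
  | succ m =>
    obtain ⟨j, h, hh, rfl⟩ := mem_E_succ.1 hg
    obtain ⟨k, hk⟩ := vv_mul i j
    refine mem_E_succ.2 ⟨k, h, hh, ?_⟩
    rw [← hk]
    group

lemma E_mul_A (j m : ℕ) (g h : Equiv.Perm ℕ) (hg : g ∈ E j) (hh : h ∈ A m) :
    g * h ∈ A (j + m) := by
  induction j generalizing g with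
  | zero =>
    obtain ⟨i, rfl⟩ := mem_E_zero.1 hg
    obtain ⟨k, hk, h1⟩ := mem_A.1 hh
    exact mem_A.2 ⟨k, by omega, vv_mul_E i h1⟩
  | succ j ih =>
    obtain ⟨i, g', hg', rfl⟩ := mem_E_succ.1 hg
    obtain ⟨k, hk, h1⟩ := mem_A.1 (ih g' hg')
    refine mem_A.2 ⟨k + 1, by omega, mem_E_succ.2 ⟨i, g' * h, h1, ?_⟩⟩
    group

lemma A_sub : IsSub A := by
  intro i j g h hg hh
  obtain ⟨k, hk, h1⟩ := mem_A.1 hg
  exact A_mono (k + j) (i + j) (by omega) (E_mul_A k j g h h1 hh)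

open Classical in
/-- Elements whose first level sections have total length at most `m`. -/
def Lift (R : ℕ → Finset (Equiv.Perm ℕ)) (m : ℕ) : Finset (Equiv.Perm ℕ) :=
  (univ : Finset Bool).biUnion fun p => (range (m + 1)).biUnion fun i =>
    (R i ×ˢ R (m - i)).image fun x => mk p (fun u => cond u x.1 x.2)

lemma mem_Lift' {R : ℕ → Finset (Equiv.Perm ℕ)} {m : ℕ} {g : Equiv.Perm ℕ} :
    g ∈ Lift R m ↔ ∃ p i, i ≤ m ∧ ∃ g1 ∈ R i, ∃ g0 ∈ R (m - i),
      g = mk p (fun u => cond u g1 g0) := by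
  simp only [Lift, mem_biUnion, mem_univ, true_and, mem_range, mem_image, mem_product, Prod.exists]
  constructor
  · rintro ⟨p, i, hi, g1, g0, ⟨h1, h0⟩, rfl⟩
    exact ⟨p, i, by omega, g1, h1, g0, h0, rfl⟩
  · rintro ⟨p, i, hi, g1, h1, g0, h0, rfl⟩
    exact ⟨p, i, by omega, g1, g0, ⟨h1, h0⟩, rfl⟩

lemma mem_Lift {R : ℕ → Finset (Equiv.Perm ℕ)} (hR : Mono R) {m i j : ℕ} (p : Bool)
    {g1 g0 : Equiv.Perm ℕ} (h1 : g1 ∈ R i) (h0 : g0 ∈ R j) (hij : i + j ≤ m) :
    mk p (fun u => cond u g1 g0) ∈ Lift R m :=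
  mem_Lift'.2 ⟨p, i, by omega, g1, h1, g0, hR j (m - i) (by omega) h0, rfl⟩

lemma Lift_mono {R : ℕ → Finset (Equiv.Perm ℕ)} (hR : Mono R) : Mono (Lift R) := by
  intro m m' h g hg
  obtain ⟨p, i, hi, g1, h1, g0, h0, rfl⟩ := mem_Lift'.1 hg
  exact mem_Lift hR p h1 h0 (by omega)

lemma Lift_sub {R : ℕ → Finset (Equiv.Perm ℕ)} (hR : Mono R) (hS : IsSub R) :
    IsSub (Lift R) := by
  intro m m' g h hg hh
  obtain ⟨p, i, hi, g1, h1, g0, h0, rfl⟩ := mem_Lift'.1 hg
  obtain ⟨p', i', hi', g1', h1', g0', h0', rfl⟩ := mem_Lift'.1 hh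
  rw [mk_mul]
  cases p'
  · have : (fun u => (fun u => cond u g1 g0) (xor u false) * (fun u => cond u g1' g0') u) =
        fun u => cond u (g1 * g1') (g0 * g0') := by
      funext u
      cases u <;> rfl
    rw [this]
    exact mem_Lift hR _ (hS _ _ _ _ h1 h1') (hS _ _ _ _ h0 h0') (by omega)
  · have : (fun u => (fun u => cond u g1 g0) (xor u true) * (fun u => cond u g1' g0') u) =
        fun u => cond u (g0 * g1') (g1 * g0') := by
      funext u
      cases u <;> rfl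
    rw [this]
    exact mem_Lift hR _ (hS _ _ _ _ h0 h1') (hS _ _ _ _ h1 h0') (by omega)

lemma card_Lift (R : ℕ → Finset (Equiv.Perm ℕ)) (m : ℕ) :
    (Lift R m).card ≤ 2 * ∑ i ∈ range (m + 1), (R i).card * (R (m - i)).card := by
  classical
  unfold Lift
  refine card_biUnion_le.trans ?_
  rw [Fintype.sum_bool, two_mul]
  have h : ∀ p : Bool, ((range (m + 1)).biUnion fun i =>
      (R i ×ˢ R (m - i)).image fun x => mk p (fun u => cond u x.1 x.2)).card ≤
      ∑ i ∈ range (m + 1), (R i).card * (R (m - i)).card := by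
    intro p
    refine card_biUnion_le.trans (sum_le_sum fun i _ => ?_)
    refine card_image_le.trans ?_
    rw [card_product]
  exact add_le_add (h true) (h false)

/-! ### Letters -/

lemma one_A : (1 : Equiv.Perm ℕ) ∈ A 0 := mem_A.2 ⟨0, le_rfl, mem_E_zero.2 ⟨0, rfl⟩⟩
lemma b_A : b ∈ A 0 := mem_A.2 ⟨0, le_rfl, mem_E_zero.2 ⟨1, rfl⟩⟩
lemma c_A : c ∈ A 0 := mem_A.2 ⟨0, le_rfl, mem_E_zero.2 ⟨2, rfl⟩⟩
lemma d_A : d ∈ A 0 := mem_A.2 ⟨0, le_rfl, mem_E_zero.2 ⟨3, rfl⟩⟩
lemma a_A : a ∈ A 1 := mem_A.2 ⟨1, le_rfl, mem_E_succ.2 ⟨0, 1, mem_E_zero.2 ⟨0, rfl⟩, by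
  simp [vv]⟩⟩

lemma mk_const (p : Bool) (g : Equiv.Perm ℕ) :
    mk p (fun _ => g) = mk p (fun u => cond u g g) := by
  congr 1
  funext u
  cases u <;> rfl

/-- the families of first and second level -/
def L1 : ℕ → Finset (Equiv.Perm ℕ) := Lift A
/-- see `L1` -/
def L2 : ℕ → Finset (Equiv.Perm ℕ) := Lift L1

lemma L1_mono : Mono L1 := Lift_mono A_mono
lemma L2_mono : Mono L2 := Lift_mono L1_mono
lemma L1_sub : IsSub L1 := Lift_sub A_mono A_sub
lemma L2_sub : IsSub L2 := Lift_sub L1_mono L1_sub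

lemma one_L1 : (1 : Equiv.Perm ℕ) ∈ L1 0 := by
  rw [← mkf_one]; exact mem_Lift A_mono _ one_A one_A le_rfl
lemma a_L1 : a ∈ L1 0 := by
  rw [a_rec, mk_const]; exact mem_Lift A_mono _ one_A one_A le_rfl
lemma b_L1 : b ∈ L1 1 := by
  rw [b_rec]; exact mem_Lift A_mono _ a_A b_A le_rfl
lemma c_L1 : c ∈ L1 1 := by
  rw [c_rec]; exact mem_Lift A_mono _ a_A d_A le_rfl
lemma d_L1 : d ∈ L1 0 := by
  rw [d_rec]; exact mem_Lift A_mono _ one_A c_A le_rfl

lemma one_L2 : (1 : Equiv.Perm ℕ) ∈ L2 0 := by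
  rw [← mkf_one]; exact mem_Lift L1_mono _ one_L1 one_L1 le_rfl
lemma a_L2 : a ∈ L2 0 := by
  rw [a_rec, mk_const]; exact mem_Lift L1_mono _ one_L1 one_L1 le_rfl
lemma b_L2 : b ∈ L2 1 := by
  rw [b_rec]; exact mem_Lift L1_mono _ a_L1 b_L1 le_rfl
lemma c_L2 : c ∈ L2 0 := by
  rw [c_rec]; exact mem_Lift L1_mono _ a_L1 d_L1 le_rfl
lemma d_L2 : d ∈ L2 1 := by
  rw [d_rec]; exact mem_Lift L1_mono _ one_L1 c_L1 le_rfl

/-! ### Words with few letters different from `b` -/

open Classical in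
/-- Words of `j + 1` letters with at most `k` letters different from `b`. -/
def Bd : ℕ → ℕ → Finset (Equiv.Perm ℕ)
  | 0, 0 => {b}
  | 0, (_ + 1) => univ.image vv
  | (j + 1), 0 => (Bd j 0).image fun g => b * a * g
  | (j + 1), (k + 1) => (Bd j (k + 1)).image (fun g => b * a * g) ∪
      (univ ×ˢ Bd j k).image (fun p : Fin 4 × Equiv.Perm ℕ => vv p.1 * a * p.2)

lemma card_Bd (τ : ℝ) (h0 : 0 < τ) (h1 : τ ≤ 1) (j k : ℕ) :
    ((Bd j k).card : ℝ) * τ ^ k ≤ (1 + 4 * τ) ^ (j + 1) := by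
  classical
  induction j generalizing k with
  | zero =>
    cases k with
    | zero =>
      simp only [Bd, card_singleton, Nat.cast_one, pow_zero, mul_one, zero_add, pow_one]
      linarith
    | succ k =>
      have h2 : ((Bd 0 (k + 1)).card : ℝ) ≤ 4 := by
        have : (Bd 0 (k + 1)).card ≤ 4 := by
          simp only [Bd]
          exact card_image_le.trans (by simp)
        exact_mod_cast this
      have h3 : τ ^ (k + 1) ≤ τ := by
        rw [pow_succ]
        have : τ ^ k ≤ 1 := pow_le_one₀ h0.le h1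
        nlinarith
      have h4 : 0 ≤ τ ^ (k + 1) := by positivity
      rw [zero_add, pow_one]
      nlinarith
  | succ j ih =>
    have hp : (1 : ℝ) ≤ 1 + 4 * τ := by linarith
    have hpos : (0 : ℝ) ≤ (1 + 4 * τ) ^ (j + 1) := by positivity
    cases k with
    | zero =>
      have h2 : (Bd (j + 1) 0).card ≤ (Bd j 0).card := by
        simp only [Bd]
        exact card_image_le
      have h2' : ((Bd (j + 1) 0).card : ℝ) ≤ ((Bd j 0).card : ℝ) := by exact_mod_cast h2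
      have h3 := ih 0
      rw [pow_zero, mul_one] at h3 ⊢
      rw [pow_succ (1 + 4 * τ) (j + 1)]
      nlinarith
    | succ k =>
      have h2 : (Bd (j + 1) (k + 1)).card ≤ (Bd j (k + 1)).card + 4 * (Bd j k).card := by
        simp only [Bd]
        refine (card_union_le _ _).trans (add_le_add card_image_le ?_)
        refine card_image_le.trans ?_
        rw [card_product]
        simp
      have h2' : ((Bd (j + 1) (k + 1)).card : ℝ) ≤ ((Bd j (k + 1)).card : ℝ) +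
          4 * ((Bd j k).card : ℝ) := by exact_mod_cast h2
      have h3 := ih (k + 1)
      have h4 := ih k
      have hk : 0 ≤ τ ^ (k + 1) := by positivity
      have h5 : ((Bd (j + 1) (k + 1)).card : ℝ) * τ ^ (k + 1) ≤
          ((Bd j (k + 1)).card : ℝ) * τ ^ (k + 1) + 4 * τ * (((Bd j k).card : ℝ) * τ ^ k) := by
        calc ((Bd (j + 1) (k + 1)).card : ℝ) * τ ^ (k + 1)
            ≤ (((Bd j (k + 1)).card : ℝ) + 4 * ((Bd j k).card : ℝ)) * τ ^ (k + 1) :=
              mul_le_mul_of_nonneg_right h2' hk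
          _ = _ := by rw [pow_succ]; ring
      rw [pow_succ (1 + 4 * τ) (j + 1)]
      nlinarith

/-- The classification of a word. -/
lemma classify (j : ℕ) (g : Equiv.Perm ℕ) (hg : g ∈ E j) : ∃ nb nc nd no : ℕ,
    nb + nc + nd + no = j + 1 ∧ g ∈ L1 (nb + nc) ∧ g ∈ L2 (nb + nd) ∧
      ∀ k, nc + nd + no ≤ k → g ∈ Bd j k := by
  classical
  induction j generalizing g with
  | zero =>
    obtain ⟨i, rfl⟩ := mem_E_zero.1 hg
    have hall : ∀ k, 1 ≤ k → vv i ∈ Bd 0 k := by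
      intro k hk
      obtain ⟨k', rfl⟩ : ∃ k', k = k' + 1 := ⟨k - 1, by omega⟩
      simp [Bd]
    fin_cases i
    · exact ⟨0, 0, 0, 1, rfl, one_L1, one_L2, fun k hk => hall k hk⟩
    · refine ⟨1, 0, 0, 0, rfl, b_L1, b_L2, fun k _ => ?_⟩
      cases k with
      | zero => simp [Bd, vv]
      | succ k => exact hall _ (by omega)
    · exact ⟨0, 1, 0, 0, rfl, c_L1, c_L2, fun k hk => hall k hk⟩
    · exact ⟨0, 0, 1, 0, rfl, d_L1, d_L2, fun k hk => hall k hk⟩
  | succ j ih =>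
    obtain ⟨i, h, hh, rfl⟩ := mem_E_succ.1 hg
    obtain ⟨nb, nc, nd, no, hn, h1, h2, h3⟩ := ih h hh
    have hall : ∀ k, nc + nd + no + 1 ≤ k → vv i * a * h ∈ Bd (j + 1) k := by
      intro k hk
      obtain ⟨k', rfl⟩ : ∃ k', k = k' + 1 := ⟨k - 1, by omega⟩
      rw [Bd, mem_union]
      right
      exact mem_image.2 ⟨(i, h), mem_product.2 ⟨mem_univ _, h3 k' (by omega)⟩, rfl⟩
    have hL1 : ∀ (x : Equiv.Perm ℕ) (n : ℕ), x ∈ L1 n → x * a * h ∈ L1 (n + (nb + nc)) := by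
      intro x n hx
      have := L1_sub _ _ _ _ (L1_sub _ _ _ _ hx a_L1) h1
      simpa using this
    have hL2 : ∀ (x : Equiv.Perm ℕ) (n : ℕ), x ∈ L2 n → x * a * h ∈ L2 (n + (nb + nd)) := by
      intro x n hx
      have := L2_sub _ _ _ _ (L2_sub _ _ _ _ hx a_L2) h2
      simpa using this
    fin_cases i
    · refine ⟨nb, nc, nd, no + 1, by omega, ?_, ?_, fun k hk => hall k (by omega)⟩
      · simpa [vv] using hL1 1 0 one_L1
      · simpa [vv] using hL2 1 0 one_L2
    · refine ⟨nb + 1, nc, nd, no, by omega, ?_, ?_, fun k hk => ?_⟩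
      · rw [show nb + 1 + nc = 1 + (nb + nc) by ring]; exact hL1 b 1 b_L1
      · rw [show nb + 1 + nd = 1 + (nb + nd) by ring]; exact hL2 b 1 b_L2
      · cases k with
        | zero =>
          rw [Bd]
          exact mem_image.2 ⟨h, h3 0 hk, rfl⟩
        | succ k =>
          rw [Bd, mem_union]
          left
          exact mem_image.2 ⟨h, h3 (k + 1) hk, rfl⟩
    · refine ⟨nb, nc + 1, nd, no, by omega, ?_, ?_, fun k hk => hall k (by omega)⟩
      · rw [show nb + (nc + 1) = 1 + (nb + nc) by ring]; exact hL1 c 1 c_L1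
      · simpa [vv] using hL2 c 0 c_L2
    · refine ⟨nb, nc, nd + 1, no, by omega, ?_, ?_, fun k hk => hall k (by omega)⟩
      · simpa [vv] using hL1 d 0 d_L1
      · rw [show nb + (nd + 1) = 1 + (nb + nd) by ring]; exact hL2 d 1 d_L2

lemma A_card_le (m k M : ℕ) (hM : 2 * (m + 1) ≤ 2 * M + 1 + (k + 1)) :
    (A m).card ≤ ∑ j ∈ range (m + 1), (Bd j k).card + (L1 M).card + (L2 M).card := by
  classical
  have hsub : A m ⊆ ((range (m + 1)).biUnion (fun j => Bd j k)) ∪ L1 M ∪ L2 M := by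
    intro g hg
    obtain ⟨j, hj, h⟩ := mem_A.1 hg
    obtain ⟨nb, nc, nd, no, hn, h1, h2, h3⟩ := classify j g h
    rw [mem_union, mem_union, mem_biUnion]
    by_cases hk : nc + nd + no ≤ k
    · exact Or.inl (Or.inl ⟨j, mem_range.2 (by omega), h3 k hk⟩)
    · by_cases hc : nb + nc ≤ M
      · exact Or.inl (Or.inr (L1_mono _ _ hc h1))
      · by_cases hd : nb + nd ≤ M
        · exact Or.inr (L2_mono _ _ hd h2)
        · omega
  refine (card_le_card hsub).trans ?_
  refine (card_union_le _ _).trans (add_le_add ((card_union_le _ _).trans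
    (add_le_add card_biUnion_le le_rfl)) le_rfl)

/-! ### Exponential rates -/

/-- Growth of rate at most `l`. -/
def Bdd (R : ℕ → Finset (Equiv.Perm ℕ)) (l : ℝ) : Prop :=
  ∃ K : ℝ, 0 ≤ K ∧ ∀ m : ℕ, ((R m).card : ℝ) ≤ K * Real.exp (l * m)

lemma poly_le (δ : ℝ) (hδ : 0 < δ) (m : ℕ) : ((m : ℝ) + 1) ≤ (1 + 1 / δ) * Real.exp (δ * m) := by
  have h1 : δ * m + 1 ≤ Real.exp (δ * m) := Real.add_one_le_exp _
  have h2 : 0 ≤ δ * m := by positivity
  have h3 : (m : ℝ) = (1 / δ) * (δ * m) := by field_simp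
  have h4 : (m : ℝ) ≤ (1 / δ) * Real.exp (δ * m) := by
    conv_lhs => rw [h3]
    apply mul_le_mul_of_nonneg_left _ (by positivity)
    linarith
  have h5 : (1 : ℝ) ≤ Real.exp (δ * m) := by linarith
  calc (m : ℝ) + 1 ≤ (1 / δ) * Real.exp (δ * m) + Real.exp (δ * m) := add_le_add h4 h5
    _ = _ := by ring

lemma Bdd_Lift {R : ℕ → Finset (Equiv.Perm ℕ)} {l l' : ℝ} (h : Bdd R l) (hl : l < l') :
    Bdd (Lift R) l' := by
  obtain ⟨K, hK, H⟩ := h
  refine ⟨2 * ((1 + 1 / (l' - l)) * K ^ 2), by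
    have : 0 < l' - l := by linarith
    positivity, fun m => ?_⟩
  have h1 : ((Lift R m).card : ℝ) ≤ 2 * ∑ i ∈ range (m + 1), ((R i).card : ℝ) *
      (R (m - i)).card := by exact_mod_cast card_Lift R m
  have h2 : ∑ i ∈ range (m + 1), ((R i).card : ℝ) * (R (m - i)).card ≤
      ∑ i ∈ range (m + 1), K ^ 2 * Real.exp (l * m) := by
    apply sum_le_sum
    intro i hi
    have him : i ≤ m := by have := mem_range.1 hi; omega
    have e1 := H i
    have e2 := H (m - i)
    calc ((R i).card : ℝ) * (R (m - i)).card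
        ≤ (K * Real.exp (l * i)) * (K * Real.exp (l * (m - i : ℕ))) :=
          mul_le_mul e1 e2 (by positivity) (by positivity)
      _ = K ^ 2 * (Real.exp (l * i) * Real.exp (l * (m - i : ℕ))) := by ring
      _ = K ^ 2 * Real.exp (l * m) := by
          rw [← Real.exp_add]
          congr 2
          rw [Nat.cast_sub him]
          ring
  rw [sum_const, card_range, nsmul_eq_mul] at h2
  push_cast at h2
  have h3 := poly_le (l' - l) (by linarith) m
  calc ((Lift R m).card : ℝ) ≤ 2 * (((m : ℝ) + 1) * (K ^ 2 * Real.exp (l * m))) := by linarith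
    _ ≤ 2 * (((1 + 1 / (l' - l)) * Real.exp ((l' - l) * m)) * (K ^ 2 * Real.exp (l * m))) := by
        gcongr
    _ = 2 * ((1 + 1 / (l' - l)) * K ^ 2) * (Real.exp ((l' - l) * m) * Real.exp (l * m)) := by ring
    _ = 2 * ((1 + 1 / (l' - l)) * K ^ 2) * Real.exp (l' * m) := by
        rw [← Real.exp_add]
        congr 2
        ring

lemma card_E (j : ℕ) : (E j).card ≤ 4 ^ (j + 1) := by
  classical
  induction j with
  | zero =>
    simp only [E]
    exact card_image_le.trans (by simp)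
  | succ j ih =>
    simp only [E]
    refine card_image_le.trans ?_
    rw [card_product, pow_succ]
    simp only [card_univ, Fintype.card_fin]
    omega

lemma Bdd_A_three : Bdd A 3 := by
  classical
  refine ⟨4, by norm_num, fun m => ?_⟩
  have h1 : (A m).card ≤ (m + 1) * 4 ^ (m + 1) := by
    unfold A
    refine card_biUnion_le.trans ?_
    calc ∑ i ∈ range (m + 1), (E i).card ≤ ∑ i ∈ range (m + 1), 4 ^ (m + 1) := by
          apply sum_le_sum
          intro i hi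
          refine (card_E i).trans (Nat.pow_le_pow_right (by norm_num) ?_)
          have := mem_range.1 hi
          omega
      _ = _ := by rw [sum_const, card_range, smul_eq_mul]
  have h2 : m + 1 ≤ 2 ^ m := Nat.lt_two_pow_self
  have h3 : (A m).card ≤ 4 * 8 ^ m := by
    calc (A m).card ≤ (m + 1) * 4 ^ (m + 1) := h1
      _ ≤ 2 ^ m * 4 ^ (m + 1) := Nat.mul_le_mul_right _ h2
      _ = 4 * (2 * 4) ^ m := by rw [mul_pow, pow_succ]; ring
      _ = 4 * 8 ^ m := by norm_num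
  have h4 : (8 : ℝ) ^ m ≤ Real.exp (3 * m) := by
    have h5 : (8 : ℝ) ≤ Real.exp 3 := by
      have h6 : (2 : ℝ) ≤ Real.exp 1 := by
        have := Real.add_one_le_exp (1 : ℝ)
        linarith
      have h7 : Real.exp 3 = Real.exp 1 ^ 3 := by
        rw [← Real.exp_nat_mul]; norm_num
      rw [h7]
      calc (8 : ℝ) = 2 ^ 3 := by norm_num
        _ ≤ _ := pow_le_pow_left₀ (by norm_num) h6 3
    calc (8 : ℝ) ^ m ≤ Real.exp 3 ^ m := pow_le_pow_left₀ (by norm_num) h5 m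
      _ = Real.exp (3 * m) := by rw [← Real.exp_nat_mul]; congr 1; ring
  calc ((A m).card : ℝ) ≤ 4 * 8 ^ m := by exact_mod_cast h3
    _ ≤ 4 * Real.exp (3 * m) := by linarith

lemma bad_part (η : ℝ) (hη : 0 < η) : ∃ s : ℕ, 1 ≤ s ∧ ∃ K : ℝ, 0 ≤ K ∧ ∀ m : ℕ,
    (∑ j ∈ range (m + 1), ((Bd j ((m + 1) / s)).card : ℝ)) ≤ K * Real.exp (η * m) := by
  set τ : ℝ := min 1 (η / 16) with hτ
  have h0 : 0 < τ := lt_min one_pos (by positivity)
  have h1 : τ ≤ 1 := min_le_left _ _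
  have h2 : 4 * τ ≤ η / 4 := by
    have : τ ≤ η / 16 := min_le_right _ _
    linarith
  set Λ : ℝ := Real.log (1 / τ) with hΛ
  have hΛ0 : 0 ≤ Λ := Real.log_nonneg (by rw [le_div_iff₀ h0]; linarith)
  obtain ⟨s, hs⟩ := exists_nat_ge (4 * Λ / η + 1)
  have hs1 : (1 : ℝ) ≤ s := by
    have : 0 ≤ 4 * Λ / η := by positivity
    linarith
  have hs0 : (0 : ℝ) < s := by linarith
  have hs2 : Λ / s ≤ η / 4 := by
    rw [div_le_iff₀ hs0]
    have h3 : 4 * Λ / η ≤ s := by linarith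
    rw [div_le_iff₀ hη] at h3
    nlinarith
  refine ⟨s, by exact_mod_cast hs1, (1 + 1 / (η / 2)) * Real.exp (η / 2), by positivity,
    fun m => ?_⟩
  set k := (m + 1) / s with hk
  have hkr : (k : ℝ) ≤ ((m : ℝ) + 1) / s := by
    have := @Nat.cast_div_le ℝ _ _ _ (m + 1) s
    push_cast at this
    exact this
  have hb : ∀ j ∈ range (m + 1), ((Bd j k).card : ℝ) ≤ Real.exp (η / 2 * ((m : ℝ) + 1)) := by
    intro j hj
    have hj' : j + 1 ≤ m + 1 := by have := mem_range.1 hj; omega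
    have h3 := card_Bd τ h0 h1 j k
    have hpow : 0 < τ ^ k := by positivity
    have h4 : ((Bd j k).card : ℝ) ≤ (1 + 4 * τ) ^ (j + 1) / τ ^ k := by
      rw [le_div_iff₀ hpow]; exact h3
    have h5 : (1 + 4 * τ) ^ (j + 1) ≤ Real.exp (η / 4 * ((m : ℝ) + 1)) := by
      calc (1 + 4 * τ) ^ (j + 1) ≤ Real.exp (η / 4) ^ (j + 1) := by
            apply pow_le_pow_left₀ (by positivity)
            have := Real.add_one_le_exp (η / 4)
            linarith
        _ ≤ Real.exp (η / 4) ^ (m + 1) := by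
            apply pow_le_pow_right₀ _ hj'
            rw [← Real.exp_zero]
            exact Real.exp_le_exp.2 (by positivity)
        _ = Real.exp (η / 4 * ((m : ℝ) + 1)) := by
            rw [← Real.exp_nat_mul]; congr 1; push_cast; ring
    have h6 : 1 / τ ^ k ≤ Real.exp (η / 4 * ((m : ℝ) + 1)) := by
      have : 1 / τ ^ k = Real.exp (k * Λ) := by
        rw [Real.exp_nat_mul, hΛ, Real.exp_log (by positivity), one_div, one_div, inv_pow]
      rw [this]
      apply Real.exp_le_exp.2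
      calc (k : ℝ) * Λ ≤ (((m : ℝ) + 1) / s) * Λ := mul_le_mul_of_nonneg_right hkr hΛ0
        _ = (Λ / s) * ((m : ℝ) + 1) := by ring
        _ ≤ η / 4 * ((m : ℝ) + 1) := mul_le_mul_of_nonneg_right hs2 (by positivity)
    calc ((Bd j k).card : ℝ) ≤ (1 + 4 * τ) ^ (j + 1) / τ ^ k := h4
      _ = (1 + 4 * τ) ^ (j + 1) * (1 / τ ^ k) := by ring
      _ ≤ Real.exp (η / 4 * ((m : ℝ) + 1)) * Real.exp (η / 4 * ((m : ℝ) + 1)) :=
          mul_le_mul h5 h6 (by positivity) (by positivity)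
      _ = Real.exp (η / 2 * ((m : ℝ) + 1)) := by
          rw [← Real.exp_add]; congr 1; ring
  calc (∑ j ∈ range (m + 1), ((Bd j k).card : ℝ))
      ≤ ∑ j ∈ range (m + 1), Real.exp (η / 2 * ((m : ℝ) + 1)) := sum_le_sum hb
    _ = ((m : ℝ) + 1) * Real.exp (η / 2 * ((m : ℝ) + 1)) := by
        rw [sum_const, card_range, nsmul_eq_mul]; push_cast; ring
    _ ≤ ((1 + 1 / (η / 2)) * Real.exp (η / 2 * m)) * Real.exp (η / 2 * ((m : ℝ) + 1)) :=
        mul_le_mul_of_nonneg_right (poly_le (η / 2) (by positivity) m) (by positivity)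
    _ = (1 + 1 / (η / 2)) * (Real.exp (η / 2 * m) * Real.exp (η / 2 * ((m : ℝ) + 1))) := by ring
    _ = (1 + 1 / (η / 2)) * (Real.exp (η / 2) * Real.exp (η * m)) := by
        rw [← Real.exp_add, ← Real.exp_add]; congr 2; ring
    _ = _ := by ring

lemma step (η : ℝ) (hη : 0 < η) : ∃ θ : ℝ, 0 < θ ∧ θ < 1 ∧ ∀ l : ℝ, 0 < l → Bdd A l →
    Bdd A (max η (θ * l)) := by
  obtain ⟨s, hs, K, hK, HK⟩ := bad_part η hη
  have hs0 : (0 : ℝ) < s := by exact_mod_cast hs
  have hs1 : (1 : ℝ) ≤ s := by exact_mod_cast hs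
  -- θ₀ = 1 - 1/(2s), θ = 1 - 1/(4s)
  have hx : 0 < 1 / (4 * (s : ℝ)) := by positivity
  have hx1 : 1 / (4 * (s : ℝ)) ≤ 1 / 4 := by
    apply one_div_le_one_div_of_le (by norm_num)
    linarith
  set x := 1 / (4 * (s : ℝ)) with hxd
  refine ⟨1 - x, by linarith, by linarith, fun l hl hA => ?_⟩
  -- rate of the lifts
  have hθ0 : 0 < 1 - 2 * x := by linarith
  set l' := (1 - x) * l / (1 - 2 * x) with hl'
  have hll' : l < l' := by
    rw [hl', lt_div_iff₀ hθ0]
    nlinarith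
  have hl'2 : l' * (1 - 2 * x) = (1 - x) * l := by
    rw [hl', div_mul_cancel₀ _ hθ0.ne']
  obtain ⟨K1, hK1, H1⟩ := Bdd_Lift hA hll'
  have hmid : l < (l + l') / 2 := by linarith
  have hmid2 : (l + l') / 2 < l' := by linarith
  obtain ⟨K2, hK2, H2⟩ := Bdd_Lift (Bdd_Lift hA hmid) hmid2
  have hl'0 : 0 < l' := by linarith
  refine ⟨K + (K1 + K2) * Real.exp (l' * 1 + l), by positivity, fun m => ?_⟩
  set k := (m + 1) / s with hk
  set M := m + 1 - (k + 1) / 2 with hM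
  have hcount := A_card_le m k M (by omega)
  have hcount' : ((A m).card : ℝ) ≤ (∑ j ∈ range (m + 1), ((Bd j k).card : ℝ)) +
      ((L1 M).card : ℝ) + ((L2 M).card : ℝ) := by exact_mod_cast hcount
  have hb := HK m
  rw [← hk] at hb
  -- M ≤ (1 - 2x)(m+1) + 1
  have hk1 : ((m : ℝ) + 1) / s ≤ k + 1 := by
    rw [div_le_iff₀ hs0]
    have := Nat.lt_div_mul_add (a := m + 1) (b := s) (by omega)
    rw [← hk] at this
    have h2 : ((m + 1 : ℕ) : ℝ) < ((k * s + s : ℕ) : ℝ) := by exact_mod_cast this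
    push_cast at h2
    nlinarith
  have hMle : (M : ℝ) ≤ (1 - 2 * x) * (m + 1) + 1 := by
    have h3 : 2 * M + (k + 1) ≤ 2 * (m + 1) + 2 := by
      have : (k + 1) / 2 ≤ m + 1 := by
        have : k ≤ m + 1 := Nat.div_le_self _ _
        omega
      omega
    have h4 : 2 * (M : ℝ) + (k + 1) ≤ 2 * ((m : ℝ) + 1) + 2 := by exact_mod_cast h3
    have h5 : 2 * (2 * x) * ((m : ℝ) + 1) = ((m : ℝ) + 1) / s := by
      rw [hxd]; field_simp; ring
    nlinarith
  have hexp : Real.exp (l' * M) ≤ Real.exp (l' * 1 + l) * Real.exp (max η ((1 - x) * l) * m) := by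
    rw [← Real.exp_add]
    apply Real.exp_le_exp.2
    have h6 : l' * M ≤ l' * ((1 - 2 * x) * (m + 1) + 1) := mul_le_mul_of_nonneg_left hMle hl'0.le
    have h7 : l' * ((1 - 2 * x) * ((m : ℝ) + 1) + 1) = (1 - x) * l * m + (1 - x) * l + l' := by
      calc l' * ((1 - 2 * x) * ((m : ℝ) + 1) + 1) = (l' * (1 - 2 * x)) * ((m : ℝ) + 1) + l' := by
            ring
        _ = _ := by rw [hl'2]; ring
    have h8 : (1 - x) * l * m ≤ max η ((1 - x) * l) * m :=
      mul_le_mul_of_nonneg_right (le_max_right _ _) (by positivity)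
    have h9 : (1 - x) * l ≤ l := by nlinarith
    linarith
  have hexp2 : Real.exp (η * m) ≤ Real.exp (max η ((1 - x) * l) * m) :=
    Real.exp_le_exp.2 (mul_le_mul_of_nonneg_right (le_max_left _ _) (by positivity))
  have e1 : ((L1 M).card : ℝ) ≤ K1 * Real.exp (l' * M) := H1 M
  have e2 : ((L2 M).card : ℝ) ≤ K2 * Real.exp (l' * M) := H2 M
  calc ((A m).card : ℝ) ≤ K * Real.exp (η * m) + K1 * Real.exp (l' * M) +
        K2 * Real.exp (l' * M) := by linarith
    _ ≤ K * Real.exp (max η ((1 - x) * l) * m) +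
        K1 * (Real.exp (l' * 1 + l) * Real.exp (max η ((1 - x) * l) * m)) +
        K2 * (Real.exp (l' * 1 + l) * Real.exp (max η ((1 - x) * l) * m)) := by
        gcongr
    _ = _ := by ring

lemma Bdd_A (η : ℝ) (hη : 0 < η) : Bdd A η := by
  obtain ⟨θ, h0, h1, H⟩ := step η hη
  have hit : ∀ n : ℕ, Bdd A (max η (θ ^ n * 3)) := by
    intro n
    induction n with
    | zero =>
      obtain ⟨K, hK, h⟩ := Bdd_A_three
      refine ⟨K, hK, fun m => (h m).trans ?_⟩
      apply mul_le_mul_of_nonneg_left _ hK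
      apply Real.exp_le_exp.2
      apply mul_le_mul_of_nonneg_right _ (by positivity)
      rw [pow_zero, one_mul]
      exact le_max_right _ _
    | succ n ih =>
      obtain ⟨K, hK, h⟩ := H _ (lt_of_lt_of_le hη (le_max_left _ _)) ih
      refine ⟨K, hK, fun m => (h m).trans ?_⟩
      apply mul_le_mul_of_nonneg_left _ hK
      apply Real.exp_le_exp.2
      apply mul_le_mul_of_nonneg_right _ (by positivity)
      apply max_le (le_max_left _ _)
      rw [mul_max_of_nonneg _ _ h0.le]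
      apply max_le
      · refine le_trans ?_ (le_max_left _ _)
        nlinarith
      · refine le_trans (le_of_eq ?_) (le_max_right _ _)
        rw [pow_succ]; ring
  obtain ⟨n, hn⟩ := exists_pow_lt_of_lt_one (show 0 < η / 3 by positivity) h1
  have h2 := hit n
  rw [max_eq_left (by
    rw [lt_div_iff₀ (by norm_num)] at hn
    exact hn.le)] at h2
  exact h2

lemma ball_subset (n : ℕ) : Ball gN n ⊆ (A n : Set (Equiv.Perm ℕ)) := by
  rintro g ⟨w, hw, rfl⟩
  have h : ∀ w : List (Fin 4), ev gN w ∈ A w.length := by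
    intro w
    induction w with
    | nil => exact one_A
    | cons i w ih =>
      rw [List.length_cons, add_comm]
      have h1 : gN i ∈ A 1 := by
        fin_cases i
        · exact a_A
        · exact A_mono 0 1 (by omega) b_A
        · exact A_mono 0 1 (by omega) c_A
        · exact A_mono 0 1 (by omega) d_A
      exact A_sub _ _ _ _ h1 ih
  exact A_mono _ _ hw (h w)

/-- Upper bound for the growth. -/
theorem upper (η : ℝ) (hη : 0 < η) : ∃ K : ℝ, ∀ n : ℕ,
    ((Ball gN n).ncard : ℝ) ≤ K * Real.exp (η * n) := by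
  obtain ⟨K, hK, H⟩ := Bdd_A η hη
  refine ⟨K, fun n => le_trans ?_ (H n)⟩
  have h1 := Set.ncard_le_ncard (ball_subset n) (Finset.finite_toSet _)
  rw [Set.ncard_coe_finset] at h1
  exact_mod_cast h1

end

end Run7.h420.Morse
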